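import Mathlib
import Pool.Agent.HEC.EngineK

set_option autoImplicit false

open Set Pool.Agent.HEC

namespace Pool.Agent.Results.MP_79d139_gt.ChainCriterion

/-- A criterion at one fixed scale.  An indecomposable hereditarily equivalent continuum `X` has
span zero if and only if there are `ρ > 0` and `k` such that for every `ε > 0` some `ε`-dense
subcontinuum `M` of `X` has the property that every subcontinuum of `M × M` with equal projections
contains a pair `(x, y)` which is joined in `X` by `k` successive `ε`-chains, each staying at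
distance at least `ρ` from some point of `X`. -/
theorem result (X : Type*) [MetricSpace X] [CompactSpace X] [ConnectedSpace X] [Nontrivial X]
    (hX : ∀ K : Set X, IsClosed K → IsConnected K → K.Nontrivial → Nonempty (X ≃ₜ K))
    (hI : ∀ A B : Set X, Cont A → Cont B → A ∪ B = univ → A = univ ∨ B = univ) :
    (∀ Z : Set (X × X), IsClosed Z → IsConnected Z → Prod.fst '' Z = Prod.snd '' Z →
      ∃ x, (x, x) ∈ Z) ↔
    ∃ ρ > 0, ∃ k : ℕ, ∀ ε > 0, ∃ M : Set X, Cont M ∧ DenseIn M univ ε ∧
      ∀ Z : Set (X × X), Cont Z → Z ⊆ M ×ˢ M → Prod.fst '' Z = Prod.snd '' Z →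
        ∃ p ∈ Z, KJoined univ ε ρ k p.1 p.2 := by
  have hE : HE X := hX
  have hH : HI X := hE.hi hI
  constructor
  · intro h
    refine ⟨1, one_pos, 0, fun ε hε => ⟨univ, ⟨isClosed_univ, isConnected_univ⟩,
      fun x _ => ⟨x, mem_univ _, by rw [dist_self]; exact hε⟩, fun Z hZ _ hZe => ?_⟩⟩
    obtain ⟨x, hx⟩ := h Z hZ.1 hZ.2 hZe
    exact ⟨(x, x), hx, fun _ => x, rfl, rfl, fun i hi => absurd hi (Nat.not_lt_zero i)⟩
  · rintro ⟨ρ, hρ, k, h⟩
    exact engineK' hE hH (k := k) ⟨ρ, hρ, h⟩

end Pool.Agent.Results.MP_79d139_gt.ChainCriterion
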