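import Mathlib
import Pool.Agent.HEC.Irr

set_option autoImplicit false

open Set Pool.Agent.HEC

namespace Pool.Agent.Results.MP_79d139_gt.ComposantCriterion

/-- In the definition of span zero the diagonal can be replaced by the pairs of points of a common
composant: an indecomposable hereditarily equivalent continuum `X` has span zero if and only if
every subcontinuum of `X × X` whose two projections are all of `X` contains a pair of points which
lie in a common proper subcontinuum of `X`. -/
theorem result (X : Type*) [MetricSpace X] [CompactSpace X] [ConnectedSpace X] [Nontrivial X]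
    (hX : ∀ K : Set X, IsClosed K → IsConnected K → K.Nontrivial → Nonempty (X ≃ₜ K))
    (hI : ∀ A B : Set X, Cont A → Cont B → A ∪ B = univ → A = univ ∨ B = univ) :
    (∀ Z : Set (X × X), IsClosed Z → IsConnected Z → Prod.fst '' Z = Prod.snd '' Z →
      ∃ x, (x, x) ∈ Z) ↔
    ∀ Z : Set (X × X), IsClosed Z → IsConnected Z → Prod.fst '' Z = univ →
      Prod.snd '' Z = univ → ∃ p ∈ Z, ∃ D : Set X, Cont D ∧ D ≠ univ ∧ p.1 ∈ D ∧ p.2 ∈ D := by
  have hE : HE X := hX
  have hH : HI X := hE.hi hI
  have hnt : (univ : Set X).Nontrivial := nontrivial_univ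
  constructor
  · intro h Z hZ1 hZ2 h1 h2
    obtain ⟨x, hx⟩ := h Z hZ1 hZ2 (h1.trans h2.symm)
    refine ⟨(x, x), hx, {x}, ⟨isClosed_singleton, isConnected_singleton⟩, ?_, rfl, rfl⟩
    intro hu
    rw [← hu] at hnt
    exact not_nontrivial_singleton hnt
  · intro h
    by_contra hns
    obtain ⟨Z, hZ, hZ1, hZ2, hirr⟩ := exists_irr hE hH hns ⟨isClosed_univ, isConnected_univ⟩ hnt
    obtain ⟨p, hp, D, hD, hDne, h1, h2⟩ := h Z hZ.1 hZ.2 hZ1 hZ2
    exact hDne (univ_subset_iff.1 (hirr p hp D hD h1 h2))

end Pool.Agent.Results.MP_79d139_gt.ComposantCriterion
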