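import Mathlib
import Pool.Agent.HEC.Large

set_option autoImplicit false

open Set Pool.Agent.HEC

namespace Pool.Agent.Results.MP_79d139_gt.LargeJunctions

/-- Let `X` be an indecomposable hereditarily equivalent continuum.  Suppose that, for some `ρ > 0`
and some `N`, for every `ε > 0` there are an `ε`-dense subcontinuum `M` of `X` and a finite closed
cover `K` of `M` of mesh less than `ε` such that after the removal of at most `N` members of the
cover (those in `B`) the nerve of the remaining ones is a forest without `ρ`-large junctions, that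
is, without vertices at which three branches carry continua that are `ρ`-dense in `X`.  Then `X`
has span zero. -/
theorem result (X : Type*) [MetricSpace X] [CompactSpace X] [ConnectedSpace X] [Nontrivial X]
    (hX : ∀ K : Set X, IsClosed K → IsConnected K → K.Nontrivial → Nonempty (X ≃ₜ K))
    (hI : ∀ A B : Set X, Cont A → Cont B → A ∪ B = univ → A = univ ∨ B = univ)
    (ρ : ℝ) (hρ : 0 < ρ) (N : ℕ)
    (h : ∀ ε > 0, ∃ M : Set X, Cont M ∧ DenseIn M univ ε ∧
      ∃ (n : ℕ) (K : Fin n → Set X) (B : Set (Fin n)),
        (∀ v, IsClosed (K v)) ∧ ⋃ v, K v = M ∧ (∀ v, ∀ x ∈ K v, ∀ y ∈ K v, dist x y < ε) ∧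
        B.ncard ≤ N ∧ (nerve fun v : ↥(Bᶜ) => K v).IsAcyclic ∧
        ∀ v, ¬ LargeJunction (fun v : ↥(Bᶜ) => K v) ρ v) :
    ∀ Z : Set (X × X), IsClosed Z → IsConnected Z → Prod.fst '' Z = Prod.snd '' Z →
      ∃ x, (x, x) ∈ Z := by
  have hE : HE X := hX
  have hH : HI X := hE.hi hI
  exact large_junctions hE hH hρ N h

end Pool.Agent.Results.MP_79d139_gt.LargeJunctions
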