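import Mathlib
import Pool.Agent.HEC.Mono

set_option autoImplicit false

open Set Pool.Agent.HEC

namespace Pool.Agent.Results.MP_79d139_gt.MonotoneImages

/-- An indecomposable hereditarily equivalent continuum `X` has span zero as soon as there is a
nonconstant monotone map `g` on `X` such that for every `ε > 0` any two nonempty open subsets of
`X` are met by a subcontinuum `M` of `X` whose image `g(M)` has span less than `ε`, in the sense
that every subcontinuum of `g(M) × g(M)` with equal projections contains a pair at distance less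
than `ε`. -/
theorem result (X : Type*) [MetricSpace X] [CompactSpace X] [ConnectedSpace X] [Nontrivial X]
    (hX : ∀ K : Set X, IsClosed K → IsConnected K → K.Nontrivial → Nonempty (X ≃ₜ K))
    (hI : ∀ A B : Set X, Cont A → Cont B → A ∪ B = univ → A = univ ∨ B = univ)
    (Y : Type*) [MetricSpace Y] (g : X → Y) (hg : Continuous g)
    (hmono : ∀ t, IsPreconnected (g ⁻¹' {t})) (hne : ∃ a b, g a ≠ g b)
    (h : ∀ ε > 0, ∀ U V : Set X, IsOpen U → IsOpen V → U.Nonempty → V.Nonempty →
      ∃ M : Set X, Cont M ∧ (M ∩ U).Nonempty ∧ (M ∩ V).Nonempty ∧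
        ∀ W : Set (Y × Y), Cont W → W ⊆ (g '' M) ×ˢ (g '' M) → Prod.fst '' W = Prod.snd '' W →
          ∃ p ∈ W, dist p.1 p.2 < ε) :
    ∀ Z : Set (X × X), IsClosed Z → IsConnected Z → Prod.fst '' Z = Prod.snd '' Z →
      ∃ x, (x, x) ∈ Z := by
  have hE : HE X := hX
  have hH : HI X := hE.hi hI
  obtain ⟨ρ, hρ, hfib⟩ := fibre_far hg hmono hne
  exact small_span_images hE hH hg hρ hfib h

end Pool.Agent.Results.MP_79d139_gt.MonotoneImages
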